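import Pool.Agent.Helper30.PL.Goals

/-! Packet STEP of MP_b4564f_an (helper30). -/

set_option autoImplicit false

open Filter Topology

namespace Pool.Agent.Helper58.PL

open Pool.Agent.Helper30.PL

theorem stepUp : StepUpStmt := by
  intro p X hp hp1 hX hrec m B r hm hm1 hB hr hr2 hmain hev
  right
  obtain ⟨N, hN⟩ := eventually_atTop.mp hev
  refine eventually_atTop.mpr ⟨N + 6, fun n hn => ?_⟩
  obtain ⟨k, rfl⟩ : ∃ k, n = k + 6 := ⟨n - 6, by omega⟩
  have hk : N ≤ k := by omega
  have hq : 0 < 1 - p := by linarith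
  set q := 1 - p with hqdef
  set g := q + p * m with hgdef
  have hg : 0 < g := by positivity
  have e1 : X (k + 6) * (q + p * X (k + 3)) = X (k + 5) := hrec (k + 3)
  have e2 : X (k + 5) * (q + p * X (k + 2)) = X (k + 4) := hrec (k + 2)
  have e3 : X (k + 4) * (q + p * X (k + 1)) = X (k + 3) := hrec (k + 1)
  have e4 : X (k + 3) * (q + p * X k) = X (k + 2) := hrec k
  have h1 : m ≤ X (k + 1) := hN _ (by omega)
  have h0 : m ≤ X k := hN _ (by omega)
  have hA : 0 < X (k + 3) := hX _
  have hY : 0 < X (k + 6) := hX _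
  set A := X (k + 3) with hAdef
  have hX2 : g * A ≤ X (k + 2) := by
    rw [← e4, mul_comm g A]
    have h21 : p * m ≤ p * X k := by gcongr
    have h22 : g ≤ q + p * X k := by linarith
    exact mul_le_mul_of_nonneg_left h22 hA.le
  have hprod : X (k + 6) * (q + p * A) * (q + p * X (k + 2)) * (q + p * X (k + 1)) = A := by
    rw [e1, e2, e3]
  have hge : X (k + 6) * (q + p * A) * (q + p * (g * A)) * g ≤ A := by
    have hb : p * (g * A) ≤ p * X (k + 2) := by gcongr
    have hc : p * m ≤ p * X (k + 1) := by gcongr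
    have hc' : g ≤ q + p * X (k + 1) := by linarith
    calc X (k + 6) * (q + p * A) * (q + p * (g * A)) * g
        ≤ X (k + 6) * (q + p * A) * (q + p * X (k + 2)) * (q + p * X (k + 1)) := by
          have := hX (k + 2)
          have := hX (k + 1)
          gcongr
      _ = A := hprod
  have hDpos : 0 < (q + p * A) * (q + p * (g * A)) * g := by positivity
  have hsq : 2 * (p * q * r * A) ≤ q ^ 2 + p ^ 2 * g * A ^ 2 := by
    have h5 : p ^ 2 * r ^ 2 * A ^ 2 ≤ p ^ 2 * g * A ^ 2 := by gcongr
    nlinarith [sq_nonneg (q - p * r * A)]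
  have hbig : p * q * (1 + g + 2 * r) * A ≤ (q + p * A) * (q + p * (g * A)) := by
    have e5 : (q + p * A) * (q + p * (g * A)) = p * q * (1 + g) * A + (q ^ 2 + p ^ 2 * g * A ^ 2) := by
      ring
    have e6 : p * q * (1 + g + 2 * r) * A = p * q * (1 + g) * A + 2 * (p * q * r * A) := by ring
    rw [e5, e6]
    linarith
  have hBig : A ≤ B * ((q + p * A) * (q + p * (g * A)) * g) := by
    calc A = 1 * A := (one_mul A).symm
      _ ≤ (B * g * (p * q) * (1 + g + 2 * r)) * A := by gcongr
      _ = B * g * (p * q * (1 + g + 2 * r) * A) := by ring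
      _ ≤ B * g * ((q + p * A) * (q + p * (g * A))) := by gcongr
      _ = B * ((q + p * A) * (q + p * (g * A)) * g) := by ring
  have hfin : X (k + 6) * ((q + p * A) * (q + p * (g * A)) * g) ≤
      B * ((q + p * A) * (q + p * (g * A)) * g) := by
    calc X (k + 6) * ((q + p * A) * (q + p * (g * A)) * g)
        = X (k + 6) * (q + p * A) * (q + p * (g * A)) * g := by ring
      _ ≤ A := hge
      _ ≤ _ := hBig
  exact le_of_mul_le_mul_right hfin hDpos

/-- the key step of DOWN -/
theorem down_key {p : ℝ} {X : ℕ → ℝ} (hp : 0 < p) (hp1 : p < 1) (hX : ∀ n, 0 < X n)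
    (hrec : ∀ n, X (n + 3) * (1 - p + p * X n) = X (n + 2)) {m B : ℝ} (hm : 0 < m)
    (hB : 1 ≤ B)
    (H1 : m * (1 - p + p * B) * (1 - p + p * (1 - p + p * B)) ≤ 1)
    (H2 : m * (1 - p + p * B) ^ 2 * ((1 - p) * (1 - p + p * B) + p * B) ≤ B)
    {k : ℕ} (hb : ∀ n, k ≤ n → X n ≤ B) (hdec : X (k + 6) ≤ X (k + 5)) :
    m ≤ X (k + 6) := by
  have hq : 0 < 1 - p := by linarith
  set q := 1 - p with hqdef
  have hqp : q + p = 1 := by rw [hqdef]; ring
  set G := q + p * B with hGdef
  have hG : 0 < G := by positivity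
  have e1 : X (k + 6) * (q + p * X (k + 3)) = X (k + 5) := hrec (k + 3)
  have e2 : X (k + 5) * (q + p * X (k + 2)) = X (k + 4) := hrec (k + 2)
  have e3 : X (k + 4) * (q + p * X (k + 1)) = X (k + 3) := hrec (k + 1)
  have e4 : X (k + 3) * (q + p * X k) = X (k + 2) := hrec k
  have hA : 0 < X (k + 3) := hX _
  have hY : 0 < X (k + 6) := hX _
  have h0 : X k ≤ B := hb _ le_rfl
  have h1 : X (k + 1) ≤ B := hb _ (by omega)
  have h2 : X (k + 2) ≤ B := hb _ (by omega)
  have p1 := hX (k + 1)
  have p2 := hX (k + 2)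
  have p0 := hX k
  set A := X (k + 3) with hAdef
  have hA1 : 1 ≤ A := by
    have h3 : X (k + 6) ≤ X (k + 6) * (q + p * A) := by rw [e1]; exact hdec
    have h4 : X (k + 6) * 1 ≤ X (k + 6) * (q + p * A) := by rw [mul_one]; exact h3
    have h5 : 1 ≤ q + p * A := le_of_mul_le_mul_left h4 hY
    have h6 : p * 1 ≤ p * A := by linarith
    exact le_of_mul_le_mul_left h6 hp
  have hprod : X (k + 6) * (q + p * A) * (q + p * X (k + 2)) * (q + p * X (k + 1)) = A := by
    rw [e1, e2, e3]
  have hX2 : X (k + 2) ≤ A * G := by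
    rw [← e4]
    have : p * X k ≤ p * B := by gcongr
    gcongr
    linarith
  have hc1 : q + p * X (k + 1) ≤ G := by
    have : p * X (k + 1) ≤ p * B := by gcongr
    linarith
  rcases le_total (A * G) B with hcase | hcase
  · -- `A G ≤ B`
    have hge : A ≤ X (k + 6) * ((q + p * A) * (q + p * (G * A)) * G) := by
      have hc2 : q + p * X (k + 2) ≤ q + p * (G * A) := by
        have h12 : p * X (k + 2) ≤ p * (A * G) := by gcongr
        rw [mul_comm G A]
        linarith
      calc A = X (k + 6) * (q + p * A) * (q + p * X (k + 2)) * (q + p * X (k + 1)) := hprod.symm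
        _ ≤ X (k + 6) * (q + p * A) * (q + p * (G * A)) * G := by gcongr
        _ = _ := by ring
    have hh : m * ((q + p * A) * (q + p * (G * A)) * G) ≤ A := by
      have ht : 0 ≤ A - 1 := by linarith
      have hs : 0 ≤ B - G * A := by linarith [mul_comm A G]
      have hH1 : 0 ≤ 1 - m * G * (q + p * G) := by linarith
      have hH2 : 0 ≤ B - m * G ^ 2 * (q * G + p * B) := by linarith
      have hBG : 0 ≤ B - G := by
        have h13 : G * 1 ≤ G * A := by gcongr
        linarith
      have hid : (B - G) * (A - m * ((q + p * A) * (q + p * (G * A)) * G)) =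
          (B - G * A) * (1 - m * G * (q + p * G)) + (A - 1) * (B - m * G ^ 2 * (q * G + p * B))
            + m * p ^ 2 * G * ((A - 1) * (B - G * A)) * (B - G) := by
        have hq' : q = 1 - p := hqdef
        rw [hq']
        ring
      have hnn : 0 ≤ (B - G) * (A - m * ((q + p * A) * (q + p * (G * A)) * G)) := by
        rw [hid]
        have := mul_nonneg hs hH1
        have := mul_nonneg ht hH2
        have := mul_nonneg (mul_nonneg (by positivity : 0 ≤ m * p ^ 2 * G) (mul_nonneg ht hs)) hBG
        linarith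
      rcases hBG.eq_or_lt with h0' | hpos
      · have hA1' : A = 1 := by
          have h11 : G * A ≤ G * 1 := by linarith
          exact le_antisymm (le_of_mul_le_mul_left h11 hG) hA1
        rw [hA1']
        have : m * ((q + p * 1) * (q + p * (G * 1)) * G) = m * G * (q + p * G) := by
          rw [mul_one, mul_one, hqp]; ring
        rw [this]
        linarith
      · have := nonneg_of_mul_nonneg_right hnn hpos
        linarith
    have hDpos : 0 < (q + p * A) * (q + p * (G * A)) * G := by positivity
    exact le_of_mul_le_mul_right (hh.trans hge) hDpos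
  · -- `B ≤ A G`
    have hge : A ≤ X (k + 6) * ((q + p * A) * G ^ 2) := by
      have hc2 : q + p * X (k + 2) ≤ G := by
        have : p * X (k + 2) ≤ p * B := by gcongr
        linarith
      calc A = X (k + 6) * (q + p * A) * (q + p * X (k + 2)) * (q + p * X (k + 1)) := hprod.symm
        _ ≤ X (k + 6) * (q + p * A) * G * G := by gcongr
        _ = _ := by ring
    have hh : m * ((q + p * A) * G ^ 2) ≤ A := by
      have hmp : m * p * G ^ 2 ≤ 1 := by
        have h7 : (m * p * G ^ 2) * B ≤ 1 * B := by
          have h14 : 0 ≤ m * G ^ 2 * (q * G) := by positivity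
          have h15 : m * G ^ 2 * (q * G + p * B) = m * G ^ 2 * (q * G) + (m * p * G ^ 2) * B := by ring
          linarith
        exact le_of_mul_le_mul_right h7 (by linarith)
      have h8 : 0 ≤ G * (A * (1 - m * p * G ^ 2) - m * G ^ 2 * q) := by
        have h9 : B * (1 - m * p * G ^ 2) ≤ (A * G) * (1 - m * p * G ^ 2) :=
          mul_le_mul_of_nonneg_right hcase (by linarith)
        have h16 : m * G ^ 2 * (q * G + p * B) = B * (m * p * G ^ 2) + G * (m * G ^ 2 * q) := by ring
        have h17 : G * (A * (1 - m * p * G ^ 2) - m * G ^ 2 * q) =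
          (A * G) * (1 - m * p * G ^ 2) - G * (m * G ^ 2 * q) := by ring
        have h18 : B * (1 - m * p * G ^ 2) = B - B * (m * p * G ^ 2) := by ring
        rw [h17]
        linarith
      have h10 := nonneg_of_mul_nonneg_right h8 hG
      have h19 : m * ((q + p * A) * G ^ 2) = A * (m * p * G ^ 2) + m * G ^ 2 * q := by ring
      have h20 : A * (1 - m * p * G ^ 2) = A - A * (m * p * G ^ 2) := by ring
      rw [h19]
      linarith
    have hDpos : 0 < (q + p * A) * G ^ 2 := by positivity
    exact le_of_mul_le_mul_right (hh.trans hge) hDpos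

theorem stepDown : StepDownStmt := by
  intro p X hp hp1 hX hrec m B hm hm1 hB H1 H2 hev
  obtain ⟨N, hN⟩ := eventually_atTop.mp hev
  have key : ∀ n, N + 5 ≤ n → X (n + 1) ≤ X n → m ≤ X (n + 1) := by
    intro n hn hle
    obtain ⟨k, rfl⟩ : ∃ k, n = k + 5 := ⟨n - 5, by omega⟩
    exact down_key hp hp1 hX hrec hm hB H1 H2 (fun j hj => hN j (by omega)) hle
  by_cases hex : ∃ n, N + 5 ≤ n ∧ m ≤ X n
  · right
    obtain ⟨n0, hn0, hm0⟩ := hex
    refine eventually_atTop.mpr ⟨n0, fun n hn => ?_⟩
    induction n, hn using Nat.le_induction with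
    | base => exact hm0
    | succ j hj ih =>
      rcases le_total (X (j + 1)) (X j) with h | h
      · exact key j (by omega) h
      · exact ih.trans h
  · left
    push_neg at hex
    have hmono : ∀ n, N + 5 ≤ n → X n ≤ X (n + 1) := by
      intro n hn
      rcases le_total (X (n + 1)) (X n) with h | h
      · exact absurd (key n hn h) (not_le.mpr (hex (n + 1) (by omega)))
      · exact h
    have hmono' : Monotone (fun n => X (n + (N + 5))) := by
      refine monotone_nat_of_le_succ (fun n => ?_)
      have := hmono (n + (N + 5)) (by omega)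
      have he : n + 1 + (N + 5) = n + (N + 5) + 1 := by ring
      rw [he]
      exact this
    have hbdd : BddAbove (Set.range (fun n => X (n + (N + 5)))) := by
      refine ⟨m, ?_⟩
      rintro _ ⟨n, rfl⟩
      exact (hex _ (by omega)).le
    obtain ⟨L, hL⟩ : ∃ L, Tendsto (fun n => X (n + (N + 5))) atTop (𝓝 L) :=
      ⟨_, tendsto_atTop_ciSup hmono' hbdd⟩
    have hL' : Tendsto X atTop (𝓝 L) := (tendsto_add_atTop_iff_nat (N + 5)).mp hL
    have hLpos : 0 < L := by
      have h1 : X (0 + (N + 5)) ≤ L := hmono'.ge_of_tendsto hL 0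
      exact (hX _).trans_le h1
    have hlim : L * (1 - p + p * L) = L := by
      have h3 : Tendsto (fun n => X (n + 3) * (1 - p + p * X n)) atTop (𝓝 (L * (1 - p + p * L))) :=
        ((tendsto_add_atTop_iff_nat 3).mpr hL').mul ((hL'.const_mul p).const_add (1 - p))
      have h4 : Tendsto (fun n => X (n + 2)) atTop (𝓝 L) := (tendsto_add_atTop_iff_nat 2).mpr hL'
      refine tendsto_nhds_unique h3 ?_
      have : (fun n => X (n + 3) * (1 - p + p * X n)) = fun n => X (n + 2) := funext hrec
      rw [this]
      exact h4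
    have hL1 : L = 1 := by
      have h5 : L * (p * (L - 1)) = 0 := by linarith
      rcases mul_eq_zero.mp h5 with h | h
      · exact absurd h hLpos.ne'
      · rcases mul_eq_zero.mp h with h | h
        · exact absurd h hp.ne'
        · linarith
    rw [← hL1]
    exact hL'

end Pool.Agent.Helper58.PL
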